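import Pool.Agent.H126V.PC

/-!
# Poles of the L-functions of products of quadratic twists of curves over `ℚ(t₁, …, t_m)`

`k = ℚ(t_σ)` is a field of rational functions in a finite set `σ` of variables, so
`dim_a(k) = #σ + 1`.  `C₁, …, C_r` are hyperelliptic curves `y² = f_j(x)` over `k`, where
`f_j ∈ ℤ[t_σ][x]` has odd degree `2 g_j + 1 ≥ 3` in `x` (all elliptic curves over `k` are of this
kind), and for `D = (D₁, …, D_r)`, `D_j ∈ ℤ[t_σ]` nonzero, the variety `X_D = ∏ C_{j, D_j}` is the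
product of the quadratic twists `D_j y² = f_j(x)`.  The theorem is about the `L`-functions of all
`Hⁱ(X_D)`; the question is the case `i = 2j`.  For all `D` outside finitely many square classes of
the products of the `D_j` over the sets of an even number of factors the rank of `A^{i/2}(X_D)` is
the binomial coefficient `C(r, i/2)`.
-/

set_option autoImplicit false

namespace Pool.Agent.Results.MP_223b32_ag.ProductsOfTwists

open Filter Topology Polynomial

/-- Number of affine points of `d y² = f(x)` with coordinates in the extension of degree `m` of the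
finite field `k`, that is, the field of the elements of the algebraic closure of `k` that are fixed
by the `m`-th power of the Frobenius of `k`. -/
noncomputable def affineCount (k : Type) [Field k] (f : k[X]) (d : k) (m : ℕ) : ℕ :=
  Nat.card {P : AlgebraicClosure k × AlgebraicClosure k //
    P.1 ^ (Nat.card k ^ m) = P.1 ∧ P.2 ^ (Nat.card k ^ m) = P.2 ∧
    algebraMap k (AlgebraicClosure k) d * P.2 ^ 2 = aeval P.1 f}

/-- The norm `N(y)` of a closed point `y` of `Spec ℤ[t_σ]`, the number of elements of its residue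
field. -/
noncomputable def pointNorm {σ : Type} (y : MaximalSpectrum (MvPolynomial σ ℤ)) : ℕ :=
  Nat.card (MvPolynomial σ ℤ ⧸ y.asIdeal)

/-- Trace of the `m`-th power of the Frobenius at `y` on `H¹` of the smooth projective curve
`d y² = f(x)`, `deg f` odd: it is `q^m + 1` minus the number of points over the field with `q^m`
elements, `q = N(y)`, and there is one point at infinity. -/
noncomputable def traceH1 {σ : Type} (y : MaximalSpectrum (MvPolynomial σ ℤ))
    (f : (MvPolynomial σ ℤ)[X]) (d : MvPolynomial σ ℤ) (m : ℕ) : ℤ :=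
  haveI : y.asIdeal.IsMaximal := y.isMaximal
  letI : Field (MvPolynomial σ ℤ ⧸ y.asIdeal) := Ideal.Quotient.field y.asIdeal
  (pointNorm y : ℤ) ^ m + 1 -
    (affineCount (MvPolynomial σ ℤ ⧸ y.asIdeal) (f.map (Ideal.Quotient.mk y.asIdeal))
      (Ideal.Quotient.mk y.asIdeal d) m + 1)

/-- Trace of the `m`-th power of the Frobenius at `y` on `Hⁱ` of the product of the curves
`d_j y² = f_j(x)`, by the Künneth formula: `Hⁱ` is the sum over all `e : Fin r → {0, 1, 2}` of sum `i`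
of the tensor products of the `H^{e_j}` of the curves, and the traces on the `H⁰`, `H¹`, `H²` of a
curve are `1`, `traceH1`, `q^m`. -/
noncomputable def traceH {σ : Type} (i : ℕ) {r : ℕ} (y : MaximalSpectrum (MvPolynomial σ ℤ))
    (f : Fin r → (MvPolynomial σ ℤ)[X]) (d : Fin r → MvPolynomial σ ℤ) (m : ℕ) : ℤ :=
  ∑ e : Fin r → Fin 3, if ∑ j, (e j : ℕ) = i then
    ∏ j, (if e j = 0 then 1 else if e j = 1 then traceH1 y (f j) (d j) m
      else (pointNorm y : ℤ) ^ m) else 0

open Classical in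
/-- The `L`-function `L(s)` of `Hⁱ(X_d)` over `U = Spec ℤ[t_σ][1/N]`: the Euler product over the
closed points `y` of `U` of the factors
`det(1 - Frob_y N(y)^{-s} | Hⁱ)⁻¹ = exp(∑_{m ≥ 1} Tr(Frob_y^m | Hⁱ) N(y)^{-ms} / m)`. -/
noncomputable def LFun {σ : Type} (i : ℕ) {r : ℕ} (f : Fin r → (MvPolynomial σ ℤ)[X])
    (d : Fin r → MvPolynomial σ ℤ) (N : MvPolynomial σ ℤ) (s : ℂ) : ℂ :=
  ∏' y : MaximalSpectrum (MvPolynomial σ ℤ), if N ∉ y.asIdeal then
    Complex.exp (∑' m : ℕ, (traceH i y f d (m + 1) : ℂ) *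
      ((pointNorm y : ℕ) : ℂ) ^ (-((m + 1 : ℂ) * s)) / (m + 1 : ℂ)) else 1

/-- The nonempty sets `A` of factors such that `⊗_{j ∈ A} H¹(C_j)` occurs (up to a Tate twist) in
`Hⁱ` of the product. -/
def sets (r i : ℕ) : Finset (Finset (Fin r)) :=
  Finset.univ.filter fun A => A.Nonempty ∧ A.card ≤ i ∧ i + A.card ≤ 2 * r ∧ Even (i + A.card)

/-- **Pole orders for products of quadratic twists over `ℚ(t_σ)`, all cohomology groups.**  Let `T`
be a finite set of indices `k`, each with a vector `D k` of nonzero polynomials in `ℤ[t_σ]` and a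
height `τ k`, such that for `k ≠ l` in `T` with `τ k = τ l` and every set `A` in `sets r i` the
product of the `D_j(k) D_j(l)` over `j ∈ A` is not a square.  Let `c = C(r, i/2)` if `i` is even and
`c = 0` if `i` is odd, let `B = ∑_A C(r - |A|, (i - |A|)/2) ∏_{j ∈ A} 2 g_j`, the rest of the
dimension of `Hⁱ`, and let `n = #σ + 1 = dim_a(k)`.

1. For every `η > 0` and all sufficiently small `ε > 0`,
`∑_k (log |L(Hⁱ(X_{D(k)}), i/2 + n + iτ_k + ε)| / log(1/ε) - c [τ_k = 0])² ≤ B² + η`.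

2. If for all `k ∈ T` the integer `ρ k` is the order of the pole of `L(Hⁱ(X_{D(k)}), s)` at the point
`s_k = i/2 + n + iτ_k`, in the sense that `(s - s_k)^{ρ_k} L(s)` has a finite nonzero limit as
`s - s_k → 0` through positive real numbers, then `∑_k (ρ_k - c [τ_k = 0])² ≤ B²`, and so at most
`B²` of the `k ∈ T` with `τ_k = 0` have at `s = i/2 + n` a pole of order `≠ c`. -/
theorem result (σ : Type) [Fintype σ] (r i : ℕ) (f : Fin r → (MvPolynomial σ ℤ)[X])
    (hodd : ∀ j, Odd (f j).natDegree) (h3 : ∀ j, 3 ≤ (f j).natDegree)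
    (κ : Type) (T : Finset κ) (D : κ → Fin r → MvPolynomial σ ℤ) (τ : κ → ℝ)
    (hD0 : ∀ k ∈ T, ∀ j, D k j ≠ 0)
    (hsep : ∀ k ∈ T, ∀ l ∈ T, k ≠ l → τ k = τ l → ∀ A ∈ sets r i,
      ¬ IsSquare (∏ j ∈ A, (D k j * D l j)))
    (N : κ → MvPolynomial σ ℤ) (hN0 : ∀ k ∈ T, N k ≠ 0)
    (hN : ∀ k ∈ T, ∀ y : MaximalSpectrum (MvPolynomial σ ℤ), N k ∉ y.asIdeal → ∀ j,
      2 * D k j * (f j).leadingCoeff ∉ y.asIdeal ∧
      ((f j).map (Ideal.Quotient.mk y.asIdeal)).Separable)
    (n c B : ℕ) (hn : n = Fintype.card σ + 1) (hc : c = if Even i then r.choose (i / 2) else 0)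
    (hB : B = ∑ A ∈ sets r i,
      (r - A.card).choose ((i - A.card) / 2) * ∏ j ∈ A, ((f j).natDegree - 1)) :
    (∀ η : ℝ, 0 < η → ∀ᶠ ε : ℝ in 𝓝[>] 0,
      ∑ k ∈ T, (Real.log ‖LFun i f (D k) (N k) ((i : ℂ) / 2 + n + τ k * Complex.I + ε)‖ /
        Real.log (1 / ε) - if τ k = 0 then (c : ℝ) else 0) ^ 2 ≤ (B : ℝ) ^ 2 + η) ∧
    (∀ ρ : κ → ℤ, (∀ k ∈ T, ∃ a : ℂ, a ≠ 0 ∧ Tendsto (fun ε : ℝ => (ε : ℂ) ^ (ρ k) *
        LFun i f (D k) (N k) ((i : ℂ) / 2 + n + τ k * Complex.I + ε)) (𝓝[>] 0) (𝓝 a)) →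
      ∑ k ∈ T, (ρ k - if τ k = 0 then (c : ℤ) else 0) ^ 2 ≤ (B : ℤ) ^ 2 ∧
        (T.filter fun k => τ k = 0 ∧ ρ k ≠ (c : ℤ)).card ≤ B ^ 2) := by
  classical
  subst hc
  obtain ⟨h1, h2⟩ := Pool.Agent.H126V.Pr.main i f hodd h3 T D N τ hD0 hN0
    (fun k hk l hl hkl A hA hsq hτ => hsep k hk l hl hkl hτ A hA hsq)
    (fun k hk v hv j => (hN k hk v hv j).1) B hB
  have hdm : ((Pool.Agent.H126V.dm σ : ℝ) : ℂ) = (n : ℂ) := by
    rw [hn]
    unfold Pool.Agent.H126V.dm
    push_cast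
    rfl
  rw [hdm] at h1 h2
  refine ⟨h1, fun m hm => ?_⟩
  have hm2 := h2 m hm
  refine ⟨hm2, ?_⟩
  set c : ℕ := if Even i then r.choose (i / 2) else 0 with hc
  have h5 : ((T.filter fun k => τ k = 0 ∧ m k ≠ (c : ℤ)).card : ℤ) ≤
      ∑ k ∈ T, (m k - if τ k = 0 then (c : ℤ) else 0) ^ 2 := by
    rw [Finset.card_eq_sum_ones]
    push_cast
    rw [Finset.sum_filter]
    refine Finset.sum_le_sum fun k _ => ?_
    split_ifs with h6 h7 h7
    · have h8 : m k - c ≠ 0 := fun h => h6.2 (by linarith)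
      have := Int.one_le_abs h8
      nlinarith [sq_abs (m k - (c : ℤ))]
    · exact absurd h6.1 h7
    · positivity
    · positivity
  exact_mod_cast h5.trans hm2

end Pool.Agent.Results.MP_223b32_ag.ProductsOfTwists
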